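import Pool.Agent.Helper37.KDB.Extra
import Pool.Agent.Helper37.KDB.St.D1
import Pool.Agent.Helper37.KDB.St.D7
import Pool.Agent.Helper37.KDB.St.D8

/-! Project KDB, piece D9: capture. -/

set_option autoImplicit false

namespace KDB.I.D9

open MeasureTheory KDB
open scoped ENNReal

variable (p : Par)

/-- the size of a jump is nonnegative -/
theorem sz_nonneg (z : Nz p.d) : 0 ≤ p.sz z := by
  unfold Par.sz Par.rho
  split_ifs
  · exact le_rfl
  · exact norm_nonneg _
  · positivity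

/-- the noise of a window is nonnegative -/
theorem nse_nonneg (om : ℕ → Nz p.d) (m a c : ℕ) : 0 ≤ p.nse om m a c := by
  unfold Par.nse
  refine Finset.sum_nonneg fun j _ => ?_
  split_ifs
  · exact sz_nonneg p _
  · exact le_rfl

/-- the noise is additive -/
theorem nse_add (om : ℕ → Nz p.d) (m : ℕ) {a b c : ℕ} (hab : a ≤ b) (hbc : b ≤ c) :
    p.nse om m a c = p.nse om m a b + p.nse om m b c := by
  unfold Par.nse
  exact (Finset.sum_Ico_consecutive _ hab hbc).symm

/-- the number of rings is additive -/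
theorem nring_add (om : ℕ → Nz p.d) (m : ℕ) {a b c : ℕ} (hab : a ≤ b) (hbc : b ≤ c) :
    p.nring om m a c = p.nring om m a b + p.nring om m b c := by
  unfold Par.nring
  rw [Finset.card_filter, Finset.card_filter, Finset.card_filter]
  exact (Finset.sum_Ico_consecutive _ hab hbc).symm

/-- CAPTURE -/
theorem capture (hp : p.Ok) (om : ℕ → Nz p.d) (hv : ∀ j, p.Valid j (om j)) (i T : ℕ)
    (hi : i < p.n) (hG : p.Good om i T) :
    ∃ A B : Fin p.d → ℤ,
      ‖(p.run om (T + p.W i)).2 - p.rho (i + 1) • Par.toV A‖ ≤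
        2 ^ p.nring om i (T - p.tau i) (T + p.W i) * (8 * p.R + 8 * p.L) * p.rho i ∧
      ‖(p.run om (T + p.W i)).1 - p.xi (i + 1) • Par.toV B -
          (p.h * p.W i * p.rho (i + 1)) • Par.toV A‖ ≤
        2 ^ p.nring om i (T - p.tau i) (T + p.W i) * (8 * p.R + 8 * p.L) * p.xi i := by
  obtain ⟨h1, h2, h3, h4, h5, h6, h7⟩ := hG
  have hle1 : T - p.tau i ≤ T := Nat.sub_le _ _
  have hle2 : T ≤ T + p.W i := Nat.le_add_right _ _
  have hc1 : Clean p om i (T - p.tau i) T := by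
    intro j hj
    have hj' := Finset.mem_Ico.mp hj
    exact h3 j (Finset.mem_Ico.mpr ⟨hj'.1, by omega⟩)
  have hc2 : Clean p om i T (T + p.W i) := by
    intro j hj
    have hj' := Finset.mem_Ico.mp hj
    exact h3 j (Finset.mem_Ico.mpr ⟨by omega, hj'.2⟩)
  obtain ⟨B, hB⟩ := cap_a p hp om hv i T hi h2 h1 hc1 h4
  obtain ⟨A, hA⟩ := cap_b p hp om hv i T hi h2 hc2 h5
  have hC := cap_c p hp om hv i T hi hc2
  have hR := hp.hR
  have hL : (1000 : ℝ) ≤ p.L := by exact_mod_cast hp.hL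
  have hell1 : (1 : ℝ) ≤ p.ell := by
    have : 1 ≤ p.ell := Nat.one_le_pow _ _ (by have := hp.hL; omega)
    exact_mod_cast this
  have hrho : 0 < p.rho i := by
    unfold Par.rho
    positivity
  have hxi : 0 < p.xi i := by
    unfold Par.xi
    have : (0 : ℝ) < p.L := by linarith
    positivity
  rw [nse_add p om i hle1 hle2] at h6
  rw [nring_add p om i hle1 hle2]
  have n1 := nse_nonneg p om i (T - p.tau i) T
  have n2 := nse_nonneg p om i T (T + p.W i)
  -- the relative noises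
  set S1 := p.nse om i (T - p.tau i) T / p.rho i with hS1
  set S2 := p.nse om i T (T + p.W i) / p.rho i with hS2
  have s1 : 0 ≤ S1 := div_nonneg n1 hrho.le
  have s2 : 0 ≤ S2 := div_nonneg n2 hrho.le
  have hSR : S1 + S2 ≤ p.R := by
    rw [hS1, hS2, ← add_div, div_le_iff₀ hrho]
    exact h6
  set N1 := p.nring om i (T - p.tau i) T with hN1
  set N2 := p.nring om i T (T + p.W i) with hN2
  have p1 : (1 : ℝ) ≤ 2 ^ N1 := one_le_pow₀ (by norm_num)
  have p2 : (1 : ℝ) ≤ 2 ^ N2 := one_le_pow₀ (by norm_num)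
  have pN2 : (N2 : ℝ) ≤ 2 ^ N2 := by
    have := (Nat.lt_two_pow_self (n := N2)).le
    exact_mod_cast this
  have pp : (2 : ℝ) ^ (N1 + N2) = 2 ^ N1 * 2 ^ N2 := pow_add _ _ _
  have p1' : (2 : ℝ) ^ N1 ≤ 2 ^ (N1 + N2) := by
    rw [pp]
    nlinarith
  have p2' : (2 : ℝ) ^ N2 ≤ 2 ^ (N1 + N2) := by
    rw [pp]
    nlinarith
  have p3 : (1 : ℝ) ≤ 2 ^ (N1 + N2) := one_le_pow₀ (by norm_num)
  generalize (2 : ℝ) ^ (N1 + N2) = Q at p1' p2' p3 ⊢
  refine ⟨A, B, ?_, ?_⟩
  · refine hA.trans ?_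
    refine mul_le_mul_of_nonneg_right ?_ hrho.le
    exact mul_le_mul p2' (by linarith) (by linarith) (by linarith)
  · have hhW : p.h * p.W i * p.ell = (p.L : ℝ) ^ i := by
      rw [← h_tau p hp i, ← W_ell p i]
      push_cast
      ring
    have hh0 : 0 ≤ p.h * p.W i := by
      unfold Par.h
      positivity
    have hhle : p.h * p.W i ≤ (p.L : ℝ) ^ i := by
      rw [← hhW]
      nlinarith
    have hhxi : p.h * p.W i * p.rho i ≤ p.xi i := by
      rw [xi_eq p i, mul_comm]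
      exact mul_le_mul_of_nonneg_left hhle hrho.le
    have e : (p.run om (T + p.W i)).1 - p.xi (i + 1) • Par.toV B -
        (p.h * p.W i * p.rho (i + 1)) • Par.toV A =
        ((p.run om (T + p.W i)).1 - (p.run om T).1 -
          (p.h * p.W i) • (p.run om (T + p.W i)).2) +
        ((p.run om T).1 - p.xi (i + 1) • Par.toV B) +
        (p.h * p.W i) • ((p.run om (T + p.W i)).2 - p.rho (i + 1) • Par.toV A) := by
      rw [mul_smul (p.h * p.W i) (p.rho (i + 1)), smul_sub]
      abel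
    rw [e]
    have t3 : ‖(p.h * p.W i) • ((p.run om (T + p.W i)).2 - p.rho (i + 1) • Par.toV A)‖ ≤
        2 ^ N2 * (2 + S2) * p.xi i := by
      rw [norm_smul, Real.norm_eq_abs, abs_of_nonneg hh0]
      calc p.h * p.W i * ‖(p.run om (T + p.W i)).2 - p.rho (i + 1) • Par.toV A‖
          ≤ p.h * p.W i * (2 ^ N2 * (2 + S2) * p.rho i) := mul_le_mul_of_nonneg_left hA hh0
        _ = 2 ^ N2 * (2 + S2) * (p.h * p.W i * p.rho i) := by ring
        _ ≤ 2 ^ N2 * (2 + S2) * p.xi i :=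
          mul_le_mul_of_nonneg_left hhxi (mul_nonneg (by linarith) (by linarith))
    refine (norm_add₃_le).trans ?_
    have hsum := add_le_add (add_le_add hC hB) t3
    refine hsum.trans ?_
    have a1 : (N2 : ℝ) * p.L ≤ Q * p.L :=
      mul_le_mul_of_nonneg_right (pN2.trans p2') (by linarith)
    have a2 : (2 : ℝ) ^ N1 * (2 + S1) ≤ Q * (2 + p.R) :=
      mul_le_mul p1' (by linarith) (by linarith) (by linarith)
    have a3 : (2 : ℝ) ^ N2 * (2 + S2) ≤ Q * (2 + p.R) :=
      mul_le_mul p2' (by linarith) (by linarith) (by linarith)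
    have a4 : S2 ≤ Q * p.R := by nlinarith
    have a5 : N2 * p.L + S2 + 2 ^ N1 * (2 + S1) + 2 ^ N2 * (2 + S2) ≤
        Q * (8 * p.R + 8 * p.L) := by nlinarith
    calc ((N2 : ℝ) * p.L + S2) * p.xi i + 2 ^ N1 * (2 + S1) * p.xi i +
          2 ^ N2 * (2 + S2) * p.xi i
        = (N2 * p.L + S2 + 2 ^ N1 * (2 + S1) + 2 ^ N2 * (2 + S2)) * p.xi i := by ring
      _ ≤ Q * (8 * p.R + 8 * p.L) * p.xi i := mul_le_mul_of_nonneg_right a5 hxi.le

end KDB.I.D9
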